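import Mathlib

/-!
# A consistent path system induced by real weights but by no positive weights

A graph on seven vertices and nine edges with a consistent path system that is simply induced by a
real weight function, while every real weight function that simply induces it is negative on one
fixed edge.
-/

namespace Pool.Agent.Results.MP_11d8b4_co.RealNotPositive

open SimpleGraph

section Definitions

variable {V : Type}

/-- A path system on `G`: it assigns to every pair `u, v` of vertices a simple path from `u` to
`v`, and the path from `v` to `u` is the reversal of the path from `u` to `v`. -/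
structure PathSystem (G : SimpleGraph V) where
  /-- the path from `u` to `v` -/
  path : ∀ u v : V, G.Walk u v
  isPath : ∀ u v : V, (path u v).IsPath
  path_symm : ∀ u v : V, path v u = (path u v).reverse

/-- The system is consistent: for all distinct `x`, `y` on the path from `u` to `v`, the path
between `x` and `y` (read in one of its two directions) is a contiguous piece of the path from `u`
to `v`. -/
def PathSystem.Consistent {G : SimpleGraph V} (P : PathSystem G) : Prop :=
  ∀ u v x y : V, x ∈ (P.path u v).support → y ∈ (P.path u v).support → x ≠ y →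
    (P.path x y).IsSubwalk (P.path u v) ∨ (P.path y x).IsSubwalk (P.path u v)

/-- The weight of a walk: the sum of the weights of its edges. -/
def weight {G : SimpleGraph V} (w : Sym2 V → ℝ) {u v : V} (p : G.Walk u v) : ℝ :=
  (p.edges.map w).sum

/-- `w` simply induces `P`: for all distinct `u`, `v`, the path from `u` to `v` in `P` is the
unique simple path from `u` to `v` of minimum weight. -/
def SimplyInduces {G : SimpleGraph V} (w : Sym2 V → ℝ) (P : PathSystem G) : Prop :=
  ∀ u v : V, u ≠ v → ∀ q : G.Walk u v, q.IsPath → q ≠ P.path u v →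
    weight w (P.path u v) < weight w q

end Definitions

/-- The nine edges. -/
def edgeL : List (Sym2 (Fin 7)) :=
  [s(0, 1), s(0, 2), s(0, 3), s(1, 4), s(1, 5), s(2, 6), s(3, 6), s(4, 6), s(5, 6)]

/-- The graph. -/
def G : SimpleGraph (Fin 7) where
  Adj a b := s(a, b) ∈ edgeL
  symm := ⟨fun a b h => by rwa [Sym2.eq_swap]⟩
  loopless := ⟨by decide⟩

instance : DecidableRel G.Adj := fun a b => inferInstanceAs (Decidable (s(a, b) ∈ edgeL))

/-- The table of paths, as lists of vertices. -/
def table : List (List (List (Fin 7))) :=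
  [[[0], [0, 1], [0, 2], [0, 3], [0, 1, 4], [0, 1, 5], [0, 2, 6]],
   [[1, 0], [1], [1, 0, 2], [1, 0, 3], [1, 4], [1, 5], [1, 0, 2, 6]],
   [[2, 0], [2, 0, 1], [2], [2, 6, 3], [2, 0, 1, 4], [2, 0, 1, 5], [2, 6]],
   [[3, 0], [3, 0, 1], [3, 6, 2], [3], [3, 0, 1, 4], [3, 0, 1, 5], [3, 6]],
   [[4, 1, 0], [4, 1], [4, 1, 0, 2], [4, 1, 0, 3], [4], [4, 6, 5], [4, 6]],
   [[5, 1, 0], [5, 1], [5, 1, 0, 2], [5, 1, 0, 3], [5, 6, 4], [5], [5, 6]],
   [[6, 2, 0], [6, 2, 0, 1], [6, 2], [6, 3], [6, 4], [6, 5], [6]]]

/-- The path from `u` to `v` as a list of vertices. -/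
def rt (u v : Fin 7) : List (Fin 7) := (table.getD u []).getD v []

theorem rt_ne : ∀ u v, rt u v ≠ [] := by decide

theorem rt_chain : ∀ u v, (rt u v).IsChain G.Adj := by decide

theorem rt_head : ∀ u v, (rt u v).head (rt_ne u v) = u := by decide

theorem rt_last : ∀ u v, (rt u v).getLast (rt_ne u v) = v := by decide

/-- The walk from `u` to `v`. -/
def pw (u v : Fin 7) : G.Walk u v :=
  (Walk.ofSupport (rt u v) (rt_ne u v) (rt_chain u v)).copy (rt_head u v) (rt_last u v)

theorem support_pw (u v : Fin 7) : (pw u v).support = rt u v := by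
  rw [pw, Walk.support_copy, Walk.support_ofSupport]

/-- The path system. -/
def P : PathSystem G where
  path := pw
  isPath u v := by
    rw [Walk.isPath_def, support_pw]
    revert u v
    decide
  path_symm u v := by
    apply Walk.ext_support
    rw [Walk.support_reverse, support_pw, support_pw]
    revert u v
    decide

theorem consistent_P : P.Consistent := by
  intro u v x y hx hy hxy
  change x ∈ (pw u v).support at hx
  change y ∈ (pw u v).support at hy
  change (pw x y).IsSubwalk (pw u v) ∨ (pw y x).IsSubwalk (pw u v)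
  rw [Walk.isSubwalk_iff_support_isInfix, Walk.isSubwalk_iff_support_isInfix]
  rw [support_pw] at *
  rw [support_pw, support_pw]
  revert u v x y
  decide +kernel

/-- The weight of a list of vertices. -/
def lw {R : Type} [AddCommMonoid R] (w : Sym2 (Fin 7) → R) : List (Fin 7) → R
  | a :: b :: l => w s(a, b) + lw w (b :: l)
  | _ => 0

theorem weight_eq (w : Sym2 (Fin 7) → ℝ) {u v : Fin 7} (p : G.Walk u v) :
    weight w p = lw w p.support := by
  induction p with
  | nil => simp [weight, lw]
  | cons h p ih =>
    cases p with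
    | nil => simp [weight, lw]
    | cons h' p' =>
      simp only [weight, Walk.edges_cons, List.map_cons, List.sum_cons, Walk.support_cons, lw] at ih ⊢
      rw [ih]

theorem lw_cast (w : Sym2 (Fin 7) → ℤ) (l : List (Fin 7)) :
    lw (fun e => (w e : ℝ)) l = ((lw w l : ℤ) : ℝ) := by
  induction l with
  | nil => simp [lw]
  | cons a l ih =>
    cases l with
    | nil => simp [lw]
    | cons b l' => simp only [lw] at ih ⊢; rw [ih]; push_cast; rfl

/-- All simple paths from `u` to `v` avoiding `av`, of length less than `n`. -/
def paths : ℕ → Fin 7 → Fin 7 → List (Fin 7) → List (List (Fin 7))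
  | 0, _, _, _ => []
  | n + 1, u, v, av => (if u = v then [[u]] else []) ++
      ((List.finRange 7).filter (fun z => decide (G.Adj u z ∧ z ∉ u :: av))).flatMap
        (fun z => (paths n z v (u :: av)).map (fun l => u :: l))

theorem mem_paths {u v : Fin 7} (p : G.Walk u v) : ∀ (n : ℕ) (av : List (Fin 7)),
    p.IsPath → (∀ z ∈ p.support, z ∉ av) → p.length < n → p.support ∈ paths n u v av := by
  induction p with
  | nil =>
    intro n av _ _ hn
    obtain ⟨n, rfl⟩ := Nat.exists_eq_succ_of_ne_zero (by omega : n ≠ 0)
    simp [paths]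
  | @cons u z v h p ih =>
    intro n av hp hav hn
    obtain ⟨n, rfl⟩ := Nat.exists_eq_succ_of_ne_zero (by omega : n ≠ 0)
    have hp' := (Walk.cons_isPath_iff h p).1 hp
    simp only [paths, List.mem_append, List.mem_flatMap, List.mem_filter, List.mem_map,
      Walk.support_cons]
    right
    refine ⟨z, ⟨List.mem_finRange z, ?_⟩, p.support, ?_, rfl⟩
    · rw [decide_eq_true_iff]
      refine ⟨h, ?_⟩
      rw [List.mem_cons, not_or]
      refine ⟨?_, ?_⟩
      · rintro rfl
        exact hp'.2 p.start_mem_support
      · exact hav z (by simp)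
    · apply ih n (u :: av) hp'.1
      · intro z' hz'
        rw [List.mem_cons, not_or]
        refine ⟨?_, ?_⟩
        · rintro rfl
          exact hp'.2 hz'
        · exact hav z' (by simp [hz'])
      · simp only [Walk.length_cons] at hn
        omega

/-- The weights: `-30` on the edge `01`, and positive on the other edges. -/
def wZ (e : Sym2 (Fin 7)) : ℤ :=
  if e = s(0, 1) then -30 else if e = s(0, 2) then 40 else if e = s(0, 3) then 41
  else if e = s(2, 6) then 30 else if e = s(3, 6) then 30 else if e = s(4, 6) then 50
  else if e = s(5, 6) then 50 else 60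

theorem check : ∀ u v : Fin 7, u ≠ v → ∀ l ∈ paths 7 u v [],
    l = rt u v ∨ lw wZ (rt u v) < lw wZ l := by decide +kernel

theorem simplyInduces_wZ : SimplyInduces (fun e => (wZ e : ℝ)) P := by
  intro u v huv q hq hne
  change q ≠ pw u v at hne
  change weight _ (pw u v) < weight _ q
  rw [weight_eq, weight_eq, lw_cast, lw_cast, support_pw]
  have hlen := hq.length_lt
  rw [Fintype.card_fin] at hlen
  have h := check u v huv q.support
    (mem_paths q 7 [] hq (fun z _ => List.not_mem_nil) hlen)
  rcases h with h | h
  · exact absurd (Walk.ext_support (h.trans (support_pw u v).symm)) hne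
  · exact_mod_cast h

theorem connected_G : G.Connected := by
  have : Nonempty (Fin 7) := ⟨0⟩
  exact ⟨fun u v => ⟨pw u v⟩⟩

/-- Comparison of the path of `P` with another simple path given by its list of vertices. -/
theorem compare {w : Sym2 (Fin 7) → ℝ} (hw : SimplyInduces w P) {u v : Fin 7} (huv : u ≠ v)
    (q : G.Walk u v) (hq : q.support.Nodup) (hne : q.support ≠ rt u v) :
    lw w (rt u v) < lw w q.support := by
  have h := hw u v huv q ((Walk.isPath_def q).2 hq) (by
    intro h
    apply hne
    rw [h]
    exact support_pw u v)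
  change weight _ (pw u v) < weight _ q at h
  rwa [weight_eq, weight_eq, support_pw] at h

theorem negative {w : Sym2 (Fin 7) → ℝ} (hw : SimplyInduces w P) : w s(0, 1) < 0 := by
  have h1 := compare hw (u := 2) (v := 4) (by decide)
    (Walk.cons (by decide : G.Adj 2 6) (Walk.cons (by decide : G.Adj 6 4) Walk.nil))
    (by decide) (by decide)
  have h2 := compare hw (u := 3) (v := 5) (by decide)
    (Walk.cons (by decide : G.Adj 3 6) (Walk.cons (by decide : G.Adj 6 5) Walk.nil))
    (by decide) (by decide)
  have h3 := compare hw (u := 2) (v := 3) (by decide)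
    (Walk.cons (by decide : G.Adj 2 0) (Walk.cons (by decide : G.Adj 0 3) Walk.nil))
    (by decide) (by decide)
  have h4 := compare hw (u := 4) (v := 5) (by decide)
    (Walk.cons (by decide : G.Adj 4 1) (Walk.cons (by decide : G.Adj 1 5) Walk.nil))
    (by decide) (by decide)
  have e1 : rt 2 4 = [2, 0, 1, 4] := by decide
  have e2 : rt 3 5 = [3, 0, 1, 5] := by decide
  have e3 : rt 2 3 = [2, 6, 3] := by decide
  have e4 : rt 4 5 = [4, 6, 5] := by decide
  rw [e1] at h1
  rw [e2] at h2
  rw [e3] at h3
  rw [e4] at h4
  simp only [Walk.support_cons, Walk.support_nil, lw] at h1 h2 h3 h4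
  rw [Sym2.eq_swap (a := 6) (b := 4)] at h1
  rw [Sym2.eq_swap (a := 6) (b := 5)] at h2
  rw [Sym2.eq_swap (a := 2) (b := 0)] at h1 h3
  rw [Sym2.eq_swap (a := 3) (b := 0)] at h2
  rw [Sym2.eq_swap (a := 6) (b := 3)] at h3
  rw [Sym2.eq_swap (a := 4) (b := 1)] at h4
  rw [Sym2.eq_swap (a := 6) (b := 5)] at h4
  linarith

/-- There is a connected graph on seven vertices with a consistent path system that is simply
induced by a real weight function but by no positive weight function; moreover some fixed edge has
negative weight in every real weight function that simply induces the system. -/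
theorem result :
    ∃ (G : SimpleGraph (Fin 7)) (P : PathSystem G), G.Connected ∧ P.Consistent ∧
      (∃ w : Sym2 (Fin 7) → ℝ, SimplyInduces w P) ∧
      (¬ ∃ w : Sym2 (Fin 7) → ℝ, (∀ e ∈ G.edgeSet, 0 < w e) ∧ SimplyInduces w P) ∧
      ∃ e ∈ G.edgeSet, ∀ w : Sym2 (Fin 7) → ℝ, SimplyInduces w P → w e < 0 := by
  have he : s(0, 1) ∈ G.edgeSet := by
    rw [SimpleGraph.mem_edgeSet]
    decide
  refine ⟨G, P, connected_G, consistent_P, ⟨_, simplyInduces_wZ⟩, ?_, s(0, 1), he,
    fun w hw => negative hw⟩
  rintro ⟨w, hpos, hw⟩
  exact absurd (negative hw) (not_lt.2 (hpos _ he).le)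

end Pool.Agent.Results.MP_11d8b4_co.RealNotPositive
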